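import Pool.Agent.Helper96.LB3.Stmts

/-!
Helly on the line.
-/

set_option autoImplicit false

open Pool.Agent.Helper96.LB3

namespace Pool.Agent.Helper64.LB3

/-- A strip with nonzero slope is a segment. -/
theorem strip {q c h z : ℝ} (hq : q ≠ 0) :
    |c + q * z| ≤ h ↔ -(c / q) - h / |q| ≤ z ∧ z ≤ -(c / q) + h / |q| := by
  have hq' : 0 < |q| := abs_pos.2 hq
  have h1 : c + q * z = q * (z + c / q) := by field_simp; ring
  rw [h1, abs_mul, ← le_div_iff₀' hq', abs_le]
  constructor
  · rintro ⟨h2, h3⟩
    constructor <;> linarith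
  · rintro ⟨h2, h3⟩
    constructor <;> linarith

/-- Finitely many segments. -/
theorem helly {κ : Type} [Fintype κ] (lo hi : κ → ℝ) (h : ∀ u v, lo u ≤ hi v) :
    ∃ z : ℝ, ∀ u, lo u ≤ z ∧ z ≤ hi u := by
  classical
  by_cases hne : Nonempty κ
  · refine ⟨Finset.univ.sup' Finset.univ_nonempty lo, fun u => ⟨?_, ?_⟩⟩
    · exact Finset.le_sup' lo (Finset.mem_univ u)
    · exact Finset.sup'_le _ _ fun v _ => h v u
  · exact ⟨0, fun u => (hne ⟨u⟩).elim⟩

theorem st_HEL : ST_HEL := by
  intro ι _ b1 b2 q h y1 y2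
  classical
  constructor
  · rintro ⟨z, hz⟩ e
    rcases e with ⟨u, v⟩ | ⟨u, s⟩
    · by_cases hc : q u ≠ 0 ∧ q v ≠ 0
      · have hu := (strip (c := b1 u * y1 + b2 u * y2) hc.1).1 (hz u)
        have hv := (strip (c := b1 v * y1 + b2 v * y2) hc.2).1 (hz v)
        simp only [EG, EA, if_pos hc]
        have e1 : (b1 v / q v - b1 u / q u) * y1 + (b2 v / q v - b2 u / q u) * y2 =
            (b1 v * y1 + b2 v * y2) / q v - (b1 u * y1 + b2 u * y2) / q u := by ring
        rw [e1]
        linarith [hu.1, hv.2]
      · simp only [EG, EA, if_neg hc]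
        simp
    · by_cases hc : q u = 0
      · have hu := abs_le.1 (hz u)
        rw [hc, zero_mul, add_zero] at hu
        cases s
        · simp only [EG, EA, if_pos hc]
          simp only [Bool.false_eq_true, if_false]
          linarith [hu.1]
        · simp only [EG, EA, if_pos hc]
          simp only [if_true]
          linarith [hu.2]
      · simp only [EG, EA, if_neg hc]
        simp
  · intro he
    obtain ⟨z, hz⟩ := helly (κ := {u // q u ≠ 0})
      (fun u => -((b1 u * y1 + b2 u * y2) / q u) - h u / |q u|)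
      (fun u => -((b1 u * y1 + b2 u * y2) / q u) + h u / |q u|) (by
        intro u v
        have h1 := he (Sum.inl (u.1, v.1))
        have hc : q u.1 ≠ 0 ∧ q v.1 ≠ 0 := ⟨u.2, v.2⟩
        simp only [EG, EA, if_pos hc] at h1
        have e1 : (b1 v / q v - b1 u / q u) * y1 + (b2 v / q v - b2 u / q u) * y2 =
            (b1 v * y1 + b2 v * y2) / q v - (b1 u * y1 + b2 u * y2) / q u := by ring
        rw [e1] at h1
        linarith)
    refine ⟨z, fun u => ?_⟩
    by_cases hc : q u = 0
    · have h1 := he (Sum.inr (u, true))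
      have h2 := he (Sum.inr (u, false))
      simp only [EG, EA, if_pos hc] at h1 h2
      simp only [Bool.false_eq_true, if_false, if_true] at h1 h2
      rw [hc, zero_mul, add_zero, abs_le]
      constructor <;> linarith
    · exact (strip hc).2 (hz ⟨u, hc⟩)

end Pool.Agent.Helper64.LB3
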